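import Pool.Agent.Lib.helper24.Retract

set_option autoImplicit false

namespace Pool.Agent.Results.MP_ce47b3_al.NonFreeRetract
open Pool.Agent.FreeVar Pool.Agent.Retract

/-- Over every field there is a variety defined by multilinear identities and an idempotent
endomorphism of a relatively free algebra whose image is not relatively free. -/
theorem result : ∀ (k : Type) [Field k],
    ∃ S : Set (FreeNonUnitalNonAssocAlgebra k ℕ), (∀ f ∈ S, Multilinear f) ∧
      ∃ (A : Type) (_ : NonUnitalNonAssocRing A) (_ : Module k A) (_ : IsScalarTower k A A)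
        (_ : SMulCommClass k A A) (X : Type) (x : X → A), IsFree k S A x ∧
        ∃ π : A →ₙₐ[k] A, π.comp π = π ∧
          ¬ ∃ (Y : Type) (j : Y → NonUnitalAlgHom.range π),
            IsFree k S (NonUnitalAlgHom.range π) j :=
  fun k _ => ⟨SS k, SS_ml k, _, _, _, _, _, Bool, _, free_isFree k (SS k) Bool,
    main _ (free_isFree k (SS k) Bool)⟩

end Pool.Agent.Results.MP_ce47b3_al.NonFreeRetract
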